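import Pool.Agent.ASE.Stmts6
import Pool.Agent.Helper10_ASO.W12B

/-!
# Squad ASE, row ETM: the central characters at the induced elements
-/

open scoped BigOperators

noncomputable section

namespace Pool.Agent.PP.SE.H45

open Pool.Agent.Helper51_AWC Pool.Agent.Helper79_WRA Pool.Agent.PP Pool.Agent.PP.KF
open Pool.Agent.PP.K9 Pool.Agent.PP.K9.H97 Pool.Agent.PP.H75 Pool.Agent.PP.T3 Pool.Agent.PP.SO
open Pool.Agent.PP.SD Pool.Agent.PP.SE Module

attribute [local instance] Ideal.Quotient.field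

/-- the restriction of an irreducible character is a combination of irreducible characters with
natural coefficients -/
theorem res_dec {G : Type} [Group G] [Finite G] (C : Subgroup G) [Fintype C] {χ : G → ℂ}
    (hχ : χ ∈ Irr G) : ∃ m : (C → ℂ) → ℕ, ∀ c : C, χ c = ∑ θ ∈ (irr_finite' (G := C)).toFinset, (m θ : ℂ) * θ c := by
  classical
  obtain ⟨n, τ, -, rfl⟩ := hχ
  obtain ⟨ρ, hρ⟩ : ∃ ρ : Representation ℂ C (Fin n → ℂ), ∀ c : C, ρ.character c = τ.character c :=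
    ⟨τ.comp C.subtype, fun c => rfl⟩
  have hc : (Nat.card C : ℂ) ≠ 0 := by
    exact_mod_cast Nat.card_pos.ne'
  have hc' : (Fintype.card C : ℂ) ≠ 0 := by exact_mod_cast Fintype.card_ne_zero
  have hinv := invertibleOfNonzero hc
  have := Fintype.ofFinite (Irr C)
  have hm : ∀ θ : Irr C, ∃ m : ℕ, ∑ g, ρ.character g * (θ : C → ℂ) g⁻¹ = m * Fintype.card C := by
    rintro ⟨θ, k, σ, hσ, rfl⟩
    refine ⟨finrank ℂ (Representation.IntertwiningMap σ ρ), ?_⟩
    have := Representation.card_inv_mul_sum_char_mul_char_eq_finrank σ ρ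
    rw [← this, mul_comm, ← mul_assoc, ← Nat.card_eq_fintype_card, mul_inv_cancel₀ hc, one_mul]
  choose m hm using hm
  have hdec : ρ.character = ∑ θ : Irr C, (m θ : ℂ) • (θ : C → ℂ) := by
    have : ρ.character - ∑ θ : Irr C, (m θ : ℂ) • (θ : C → ℂ) = 0 := by
      apply irr_complete'
      · intro g h
        simp only [Pi.sub_apply, Finset.sum_apply, Pi.smul_apply, Representation.char_conj]
        congr 1
        apply Finset.sum_congr rfl
        intro χ _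
        rw [irr_conj χ.2]
      · intro ψ hψ
        simp only [Pi.sub_apply, Finset.sum_apply, Pi.smul_apply, smul_eq_mul, sub_mul,
          Finset.sum_sub_distrib, Finset.sum_mul]
        rw [hm ⟨ψ, hψ⟩, Finset.sum_comm, Finset.sum_eq_single_of_mem ⟨ψ, hψ⟩ (Finset.mem_univ _)]
        · simp_rw [mul_assoc]
          rw [← Finset.mul_sum, irr_orth_self hψ, sub_self]
        · intro χ _ hne
          simp_rw [mul_assoc]
          rw [← Finset.mul_sum, irr_orth_ne χ.2 hψ (fun h => hne (Subtype.ext h)), mul_zero]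
    exact sub_eq_zero.1 this
  refine ⟨fun θ => if h : θ ∈ Irr C then m ⟨θ, h⟩ else 0, fun c => ?_⟩
  rw [← hρ, hdec, Finset.sum_apply]
  symm
  refine Finset.sum_bij' (fun θ hθ => (⟨θ, (Set.Finite.mem_toFinset _).1 hθ⟩ : Irr C))
    (fun θ _ => (θ : C → ℂ)) (fun _ _ => Finset.mem_univ _)
    (fun θ _ => (Set.Finite.mem_toFinset _).2 θ.2) (fun _ _ => rfl) (fun _ _ => rfl) ?_
  intro θ hθ
  have h1 : θ ∈ Irr C := (Set.Finite.mem_toFinset _).1 hθ
  have h2 : (if h : θ ∈ Irr C then m ⟨θ, h⟩ else 0) = m ⟨θ, h1⟩ := dif_pos h1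
  show (((if h : θ ∈ Irr C then m ⟨θ, h⟩ else 0 : ℕ) : ℕ) : ℂ) * θ c = _
  rw [h2]
  rfl

section main

variable {V₀ G : Type} [CommGroup V₀] [Finite V₀] [Group G] [Finite G]
  {M : Ideal (integralClosure ℤ ℂ)} [M.IsMaximal]

omit [Finite V₀] [Finite G] in
theorem comm_i (B : Bk (FF M) V₀ G) {a : Subgroup V₀} {κ : V₀} (hκ : κ ∈ a) {g : G}
    (hg : g ∈ B.C a) : Commute (B.i κ) g := by
  have h1 := Subgroup.mem_centralizer_iff.1 hg (B.i κ) ⟨κ, hκ, rfl⟩
  exact h1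

omit [Finite V₀] [Finite G] in
theorem i_mem (B : Bk (FF M) V₀ G) (a : Subgroup V₀) (κ : V₀) : B.i κ ∈ B.C a := by
  refine Subgroup.mem_centralizer_iff.2 ?_
  rintro _ ⟨v, -, rfl⟩
  rw [← map_mul, ← map_mul, mul_comm]

/-- Schur's lemma for the central element `i(κ)` -/
theorem schur (B : Bk (FF M) V₀ G) {a : Subgroup V₀} {κ : V₀} (hκ : κ ∈ a) {ψ : G → ℂ}
    (hψ : (fun t : B.C a => ψ t) ∈ Irr (B.C a)) {g : G} (hg : g ∈ B.C a) :
    ψ (B.i κ * g) = nu B ψ κ * ψ g := by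
  classical
  have := Fintype.ofFinite (B.C a)
  have h1 := H10W.irr_avg hψ (⟨B.i κ, i_mem B a κ⟩ : B.C a) ⟨g, hg⟩
  have h2 : ∀ z : B.C a, (fun t : B.C a => ψ t) (z * ⟨B.i κ, i_mem B a κ⟩ * z⁻¹ * ⟨g, hg⟩) =
      ψ (B.i κ * g) := by
    intro z
    show ψ ((z : G) * B.i κ * (z : G)⁻¹ * g) = _
    rw [← (comm_i B hκ z.2).eq, mul_inv_cancel_right]
  rw [Finset.sum_congr rfl (fun z _ => h2 z), Finset.sum_const, Finset.card_univ,
    nsmul_eq_mul] at h1
  have h3 : (Fintype.card (B.C a) : ℂ) ≠ 0 := by exact_mod_cast Fintype.card_ne_zero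
  have h4 := mul_left_cancel₀ h3 h1
  rw [h4]
  unfold nu
  show ψ (B.i κ) * ψ g / ψ ((1 : B.C a) : G) = _
  rw [Subgroup.coe_one]
  ring

/-- (1) for all functions on `C` -/
theorem tk_cv (B : Bk (FF M) V₀ G) {a : Subgroup V₀} {κ : V₀} (hκ : κ ∈ a) {f ψ : G → ℂ}
    (hf : ∀ g, g ∉ B.C a → f g = 0)
    (hψ : (fun t : B.C a => ψ t) ∈ Irr (B.C a)) :
    cv (tk B κ f) ψ = nu B ψ κ * cv f ψ := by
  classical
  have := Fintype.ofFinite G
  unfold cv tk
  rw [finsum_eq_sum_of_fintype, finsum_eq_sum_of_fintype, ← mul_div_assoc, Finset.mul_sum,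
    ← Equiv.sum_comp (Equiv.mulLeft (B.i κ))]
  congr 1
  refine Finset.sum_congr rfl fun g _ => ?_
  show f ((B.i κ)⁻¹ * (B.i κ * g)) * ψ (B.i κ * g) = _
  rw [inv_mul_cancel_left]
  by_cases hg : g ∈ B.C a
  · rw [schur B hκ hψ hg]
    ring
  · rw [hf g hg]
    ring

end main

/-- Row ETM. -/
theorem etm : EtmStmt := by
  classical
  intro ℓ _ M _ hM V₀ G _ _ _ _ B D a ha hz
  have := Fintype.ofFinite G
  have := Fintype.ofFinite (B.C a)
  refine ⟨fun ψ hψ κ hκ => tk_cv B hκ hz.sup hψ.2.1, fun χ hχ => ?_⟩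
  obtain ⟨m, hm⟩ := res_dec (B.C a) hχ
  refine ⟨fun ψ => m (fun t : B.C a => ψ t), fun κ hκ => ?_⟩
  obtain ⟨T, hT⟩ : ∃ T, T = tk B κ (D.et a) := ⟨_, rfl⟩
  have hTs : ∀ g, g ∉ B.C a → T g = 0 := by
    intro g hg
    rw [hT]
    apply hz.sup
    intro h
    apply hg
    have h1 := (B.C a).mul_mem (i_mem B a κ) h
    rwa [mul_inv_cancel_left] at h1
  have hC : (Nat.card (B.C a) : ℂ) ≠ 0 := by exact_mod_cast Nat.card_pos.ne'
  have hχ1 : χ 1 ≠ 0 := irr_one_ne hχ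
  -- the induced element
  have e1 : cv (etl B D a κ ⊥) χ = (Nat.card G : ℂ) / (Nat.card (B.C a) * χ 1) *
      ∑ g, T g * χ g := by
    have h1 : ∀ g, etl B D a κ ⊥ g = (Nat.card (B.C a) : ℂ)⁻¹ * ∑ z : G, T (z⁻¹ * g * z) := by
      intro g
      unfold etl
      rw [if_neg (fun h => ha h.symm), if_pos rfl, finsum_eq_sum_of_fintype, hT]
    unfold cv
    rw [finsum_eq_sum_of_fintype]
    simp only [h1]
    have h2 : ∑ g : G, (Nat.card (B.C a) : ℂ)⁻¹ * (∑ z : G, T (z⁻¹ * g * z)) * χ g =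
        (Nat.card (B.C a) : ℂ)⁻¹ * ((Nat.card G : ℂ) * ∑ g, T g * χ g) := by
      simp only [mul_assoc]
      rw [← Finset.mul_sum]
      congr 1
      simp only [Finset.sum_mul]
      rw [Finset.sum_comm]
      have h3 : ∀ z : G, ∑ g : G, T (z⁻¹ * (g * z)) * χ g = ∑ g, T g * χ g := by
        intro z
        rw [← Equiv.sum_comp (MulAut.conj z).toEquiv]
        refine Finset.sum_congr rfl fun g _ => ?_
        show T (z⁻¹ * (z * g * z⁻¹ * z)) * χ (z * g * z⁻¹) = _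
        rw [irr_conj hχ]
        congr 2
        group
      rw [Finset.sum_congr rfl (fun z _ => h3 z), Finset.sum_const, Finset.card_univ,
        nsmul_eq_mul, Nat.card_eq_fintype_card]
    rw [h2]
    field_simp
  rw [e1]
  congr 1
  -- the decomposition
  have e2 : ∑ g, T g * χ g = ∑ θ ∈ (irr_finite' (G := B.C a)).toFinset,
      (m θ : ℂ) * ∑ c : B.C a, T c * θ c := by
    have h1 : ∑ g, T g * χ g = ∑ c : B.C a, T c * χ c := by
      have h2 : ∑ g, T g * χ g = ∑ g, (if g ∈ B.C a then T g * χ g else 0) := by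
        refine Finset.sum_congr rfl fun g _ => ?_
        split_ifs with h
        · rfl
        · rw [hTs g h, zero_mul]
      rw [h2, ← Finset.sum_filter]
      exact Finset.sum_subtype _ (fun x => by simp) _
    rw [h1]
    simp only [hm, Finset.mul_sum]
    rw [Finset.sum_comm]
    refine Finset.sum_congr rfl fun θ _ => Finset.sum_congr rfl fun c _ => ?_
    ring
  rw [e2, finsum_mem_eq_finite_toFinset_sum _ (H10W.ch_fin B a)]
  -- the value for a character of `C`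
  have e3 : ∀ ψ : G → ℂ, (∀ g, g ∉ B.C a → ψ g = 0) → (fun t : B.C a => ψ t) ∈ Irr (B.C a) →
      ∑ c : B.C a, T c * ψ c = ψ 1 * (nu B ψ κ * cv (D.et a) ψ) := by
    intro ψ h0 hψ
    have h1 : ψ 1 ≠ 0 := irr_one_ne (χ := fun t : B.C a => ψ t) hψ
    rw [← tk_cv B hκ hz.sup hψ, ← hT]
    unfold cv
    rw [finsum_eq_sum_of_fintype, mul_div_cancel₀ _ h1]
    have h2 : ∑ g, T g * ψ g = ∑ g, (if g ∈ B.C a then T g * ψ g else 0) := by
      refine Finset.sum_congr rfl fun g _ => ?_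
      split_ifs with h
      · rfl
      · rw [hTs g h, zero_mul]
    rw [h2, ← Finset.sum_filter]
    have h3 : ∑ g ∈ Finset.univ.filter (fun g => g ∈ B.C a), T g * ψ g =
        ∑ c : B.C a, T c * ψ c := Finset.sum_subtype _ (fun x => by simp) _
    exact h3.symm
  symm
  refine Finset.sum_of_injOn (fun ψ : G → ℂ => fun t : B.C a => ψ t) ?_ ?_ ?_ ?_
  · intro ψ hψ ψ' hψ' h
    have h1 := (Set.Finite.mem_toFinset _).1 hψ
    have h2 := (Set.Finite.mem_toFinset _).1 hψ'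
    funext g
    by_cases hg : g ∈ B.C a
    · exact congrFun h ⟨g, hg⟩
    · rw [h1.1 g hg, h2.1 g hg]
  · intro ψ hψ
    have h1 := (Set.Finite.mem_toFinset _).1 hψ
    exact (Set.Finite.mem_toFinset _).2 h1.2.1
  · intro θ hθ hn
    have h1 := (Set.Finite.mem_toFinset _).1 hθ
    obtain ⟨ψ, hψ⟩ : ∃ ψ : G → ℂ, ψ = H75.ext0 (B.C a) θ := ⟨_, rfl⟩
    have h2 : (fun t : B.C a => ψ t) = θ := by
      rw [hψ]
      exact funext (H75.ext0_apply _ _)
    have h3 : ∀ g, g ∉ B.C a → ψ g = 0 := by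
      rw [hψ]
      exact H75.ext0_supp _ _
    have h4 : ψ ∉ Ch B a := by
      intro h
      apply hn
      exact ⟨ψ, (Set.Finite.mem_toFinset _).2 h, h2⟩
    have h5 := e3 ψ h3 (h2 ▸ h1)
    rw [hz.blk ψ h3 (h2 ▸ h1) h4, mul_zero, mul_zero] at h5
    have h6 : ∑ c : B.C a, T c * θ c = 0 := by
      rw [← h2]
      exact h5
    rw [h6, mul_zero]
  · intro ψ hψ
    have h1 := (Set.Finite.mem_toFinset _).1 hψ
    rw [e3 ψ h1.1 h1.2.1]

end Pool.Agent.PP.SE.H45
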