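import Pool.Agent.ASE.Stmts2b

/-!
# Squad ASE, row RSX: assembly of block S, existence of the local data
-/

open scoped BigOperators

set_option autoImplicit false

noncomputable section

namespace Pool.Agent.PP.SE.H45

open Pool.Agent.Helper51_AWC Pool.Agent.Helper79_WRA Pool.Agent.PP Pool.Agent.PP.KF
open Pool.Agent.PP.K9 Pool.Agent.PP.K9.H97 Pool.Agent.PP.H75 Pool.Agent.PP.T3 Pool.Agent.PP.SO
open Pool.Agent.PP.SD

attribute [local instance] Ideal.Quotient.field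

section mk

variable {V₀ G : Type} [CommGroup V₀] [Group G] {M : Ideal (integralClosure ℤ ℂ)} [M.IsMaximal]

open Classical in
/-- the data -/
def mkD (ℓ : ℕ) (E₀ : Subgroup (MulAut V₀)) (B : Bk (FF M) V₀ G)
    (N : Subgroup V₀ → Set (G → ℂ)) (e : Subgroup V₀ → (G → ℂ) → ℤ)
    (O : Subgroup V₀ → (G → ℂ) → Set (V₀ → ℂ)) (q : Subgroup V₀ → ℚ) : Rd V₀ G where
  U W := if W ∈ RL ℓ E₀ then 1 + ℓ * q W else B.U W
  D W χ x := if W ∈ RL ℓ E₀ then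
      nu B χ (pr ℓ E₀ W x) * (if χ ∈ N W then (e W χ : ℂ) else e W χ * ∑ᶠ s ∈ O W χ, s x)
    else (B.S W : ℂ) * lam B W χ x
  R W χ ψ := if W ∈ RL ℓ E₀ then (if χ ∈ N W ∧ ψ ∈ N W then
    (e W χ : ℂ) * e W ψ * ((if rq ℓ B W χ ψ then 1 else 0) - (nS E₀ W : ℂ)⁻¹) / ℓ else 0) else 0
  et W g := if W ∈ RL ℓ E₀ then ∑ᶠ χ ∈ {χ | χ ∈ Ch B W ∧ χ ∈ N W}, (nS E₀ W : ℂ) *
    ((e W χ : ℂ) * Nat.card (B.C W) * B.D ⊤ / (nS E₀ W * Nat.card (B.C ⊤) * χ 1) -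
      ((1 + ℓ * q W : ℚ) : ℂ)) * (χ 1 / Nat.card (B.C W)) * χ g⁻¹ else 0
  fx W g := if W ∈ RL ℓ E₀ then
    ({χ | χ ∈ Iv B W (fun _ => 1) ∧ χ ∈ N W ∧ ac B g χ = χ}.ncard : ℚ) else 1

theorem mk_dw {ℓ : ℕ} [Fact ℓ.Prime] {E₀ : Subgroup (MulAut V₀)} {B : Bk (FF M) V₀ G}
    {N : Subgroup V₀ → Set (G → ℂ)} {e : Subgroup V₀ → (G → ℂ) → ℤ}
    {O : Subgroup V₀ → (G → ℂ) → Set (V₀ → ℂ)} {q : Subgroup V₀ → ℚ} {W : Subgroup V₀}
    (hW : W ∈ RL ℓ E₀)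
    (hq : ∀ χ ∈ Ch B W, χ ∉ N W → (e W χ : ℂ) * Nat.card (B.C W) * B.D ⊤ /
      (Nat.card (B.C ⊤) * χ 1) = ((1 + ℓ * q W : ℚ) : ℂ)) :
    Dw ℓ E₀ B W (N W) (e W) (O W) (mkD ℓ E₀ B N e O q) where
  dD := fun χ _ x => if_pos hW
  dR := fun χ _ ψ _ => if_pos hW
  dU := fun χ hχ hN => by
    rw [hq χ hχ hN]
    have : (mkD ℓ E₀ B N e O q).U W = 1 + ℓ * q W := if_pos hW
    rw [this]
  de := fun g => by
    have h1 : (mkD ℓ E₀ B N e O q).U W = 1 + ℓ * q W := if_pos hW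
    rw [h1]
    exact if_pos hW
  df := fun g _ _ => if_pos hW

theorem mk_dn {ℓ : ℕ} [Fact ℓ.Prime] {E₀ : Subgroup (MulAut V₀)} {B : Bk (FF M) V₀ G}
    {N : Subgroup V₀ → Set (G → ℂ)} {e : Subgroup V₀ → (G → ℂ) → ℤ}
    {O : Subgroup V₀ → (G → ℂ) → Set (V₀ → ℂ)} {q : Subgroup V₀ → ℚ} {W : Subgroup V₀}
    (hW : W ∉ RL ℓ E₀) : Dn B W (mkD ℓ E₀ B N e O q) where
  dU := if_neg hW
  dD := fun χ _ x => if_neg hW
  dR := fun χ ψ => if_neg hW
  de := funext fun g => if_neg hW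
  df := fun g => if_neg hW

end mk

theorem cv_zero {G : Type} [Group G] (χ : G → ℂ) : cv (0 : G → ℂ) χ = 0 := by
  unfold cv
  simp

theorem rsx (cyw : CywStmt) (hRFA : RfaStmt) (hRFB : RfbStmt) (hRFC : RfcStmt) (hRFD : RfdStmt)
    (hRFE : RfeStmt) (hRFF : RffStmt) (hRFG : RfgStmt) (hRFH : RfhStmt) (hRFI : RfiStmt)
    (hRFJ : RfjStmt) (hRFK : RfkStmt) (hRFL : RflStmt) (hRFM : RfmStmt) (hRFN : RfnStmt)
    (hRFP : RfpStmt) (hRNA : RnaStmt) (hRNB : RnbStmt) (hRNC : RncStmt) (prb : PrbStmt)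
    (mpb : MpbStmt) (val : ValStmt) (acb : AcbStmt) (gea : GeaStmt) (vxm : VxmStmt) :
    RsxStmt := by
  intro ℓ _ M _ hM h2 V₀ G _ _ _ _ E₀ hF B hB xc hxc
  have hlp : ℓ.Prime := Fact.out
  have hSb : Sb ℓ M E₀ B := hB.toSb
  obtain ⟨N, hNd⟩ : ∃ N : Subgroup V₀ → Set (G → ℂ), ∀ W, N W = Nn ℓ E₀ B W (xc W) :=
    ⟨fun W => Nn ℓ E₀ B W (xc W), fun _ => rfl⟩
  have hex : ∀ W, W ∈ RL ℓ E₀ → ∃ (e : (G → ℂ) → ℤ) (O : (G → ℂ) → Set (V₀ → ℂ)),
      Cy ℓ E₀ B W (N W) e O := by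
    intro W hW
    rw [hNd]
    exact cyw ℓ M hM h2 V₀ G E₀ hF B hB W hW (xc W) (fun h => hxc.m W hW h)
  choose! e O hCy using hex
  have hex2 : ∀ W, W ∈ RL ℓ E₀ → ∃ q, q ∈ SOR.Rl ℓ ∧ ∀ χ ∈ Ch B W, χ ∉ N W →
      (e W χ : ℂ) * Nat.card (B.C W) * B.D ⊤ / (Nat.card (B.C ⊤) * χ 1) =
        ((1 + ℓ * q : ℚ) : ℂ) := by
    intro W hW
    obtain ⟨q, hq, h⟩ := (hCy W hW).ux
    exact ⟨q, hq, h⟩
  choose! q hq1 hq2 using hex2
  obtain ⟨D, hDw, hDn⟩ : ∃ D : Rd V₀ G,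
      (∀ W, W ∈ RL ℓ E₀ → Dw ℓ E₀ B W (N W) (e W) (O W) D) ∧ ∀ W, W ∉ RL ℓ E₀ → Dn B W D :=
    ⟨mkD ℓ E₀ B N e O q, fun W hW => mk_dw hW (hq2 W hW), fun W hW => mk_dn hW⟩
  have hcase : ∀ W : Subgroup V₀, W ≠ ⊥ →
      W ∈ RL ℓ E₀ ∨ (Rw E₀ W ∧ W ∉ RL ℓ E₀ ∧ nS E₀ W = 1) := by
    intro W hW
    by_cases h : W ∈ RL ℓ E₀
    · exact Or.inl h
    · refine Or.inr ?_
      have h1 : nS E₀ W = 1 := ((prb ℓ V₀ E₀ hF W).2.2.2.2.2.2.1 hW).1.resolve_right h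
      refine ⟨⟨hW, fun σ hσ hf => ?_⟩, h, h1⟩
      have h3 : St E₀ W = ⊥ := Subgroup.card_eq_one.1 h1
      have h4 : σ ∈ St E₀ W := ⟨hσ, hf⟩
      rw [h3] at h4
      exact Subgroup.mem_bot.1 h4
  have hnot : ∀ W : Subgroup V₀, Rw E₀ W → W ∉ RL ℓ E₀ := by
    intro W hW h
    rcases hcase W hW.1 with h' | h'
    · have h1 : nS E₀ W = 1 := by
        refine Subgroup.card_eq_one.2 ?_
        rw [Subgroup.eq_bot_iff_forall]
        intro σ hσ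
        exact hW.2 σ hσ.1 hσ.2
      have h2 := h'.2
      rw [h1] at h2
      exact lt_irrefl _ h2
    · exact h'.2.1 h
  have hmp : ∀ σ ∈ E₀, ∀ W : Subgroup V₀, mp σ W ∈ RL ℓ E₀ ↔ W ∈ RL ℓ E₀ := by
    intro σ hσ W
    have h1 : Nat.card (mp σ W) = Nat.card W := (mpb V₀ σ 1 W W).2.2.1
    have h3 : nS E₀ (mp σ W) = nS E₀ W := ((prb ℓ V₀ E₀ hF W).2.2.2.1 σ hσ).1
    show (Nat.card (mp σ W) = ℓ ∧ 1 < nS E₀ (mp σ W)) ↔ (Nat.card W = ℓ ∧ 1 < nS E₀ W)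
    rw [h1, h3]
  have htop : ∀ W ∈ RL ℓ E₀, W ≠ ⊤ ∧ W ≠ ⊥ := fun W hW =>
    ⟨((gea ℓ V₀ E₀ hF W hW).1).2.2.2.2.2.2.2, ((gea ℓ V₀ E₀ hF W hW).1).2.2.2.2.2.2.1⟩
  have hN : ∀ W ∈ RL ℓ E₀, ∀ σ ∈ E₀, ∀ t ∈ Tg B.i.range B.g,
      (∀ v, t * B.i v * t⁻¹ = B.i (σ v)) → ∀ χ ∈ Ch B W,
      ((fun g => χ (t⁻¹ * g * t)) ∈ N (mp σ W) ↔ χ ∈ N W) := by
    intro W hW σ hσ t ht htv χ hχ
    rw [hNd, hNd]
    exact ((hRFL ℓ M hM h2 V₀ G E₀ hF B hB W hW σ hσ t ht htv).1 χ hχ).2.2.2.2 (xc W)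
      (xc (mp σ W)) (fun hn => hxc.e W hW hn σ hσ t ht htv)
  have htt := (acb ℓ M hM h2 V₀ G E₀ hF B hSb).1
  have hEv : ∀ W ∈ RL ℓ E₀, Ev E₀ B W (N W) (e W) := by
    intro W hW g hg hgW χ hχ
    obtain ⟨htT, htv⟩ := htt g hg
    have h1 := (hRFL ℓ M hM h2 V₀ G E₀ hF B hB W hW g hg (tt B g) htT htv).1 χ hχ
    have h3 := hN W hW g hg (tt B g) htT htv χ hχ
    have h4 := (hRFM ℓ M hM h2 V₀ G E₀ hF B hB W hW g hg (tt B g) htT htv (N W) (N (mp g W))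
      (e W) (e (mp g W)) (O W) (O (mp g W)) (hCy W hW) (hCy (mp g W) ((hmp g hg W).2 hW))
      (fun χ hχ => hN W hW g hg (tt B g) htT htv χ hχ) χ hχ).1
    rw [hgW] at h3 h4
    rw [h1.2.1]
    exact ⟨h3, h4⟩
  have hA := fun W hW => hRFA ℓ M hM h2 V₀ G E₀ hF B hB W hW (N W) (e W) (O W) (hCy W hW) D
    (hDw W hW)
  have hBB := fun W hW => hRFB ℓ M hM h2 V₀ G E₀ hF B hB W hW (N W) (e W) (O W) (hCy W hW) D
    (hDw W hW)
  have hC := fun W hW => hRFC ℓ M hM h2 V₀ G E₀ hF B hB W hW (N W) (e W) (O W) (hCy W hW) D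
    (hDw W hW)
  have hDD := fun W hW => hRFD ℓ M hM h2 V₀ G E₀ hF B hB W hW (N W) (e W) (O W) (hCy W hW) D
    (hDw W hW)
  have hE := fun W hW => hRFE ℓ M hM h2 V₀ G E₀ hF B hB W hW (N W) (e W) (O W) (hCy W hW) D
    (hDw W hW)
  have hFF := fun W hW => hRFF ℓ M hM h2 V₀ G E₀ hF B hB W hW (N W) (e W) (O W) (hCy W hW) D
    (hDw W hW) (hEv W hW)
  have hG := fun W hW => hRFG ℓ M hM h2 V₀ G E₀ hF B hB W hW (N W) (e W) (O W) (hCy W hW) D
    (hDw W hW)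
  have hH := fun W hW => hRFH ℓ M hM h2 V₀ G E₀ hF B hB W hW (N W) (e W) (O W) (hCy W hW) D
    (hDw W hW)
  have hI := fun W hW => hRFI ℓ M hM h2 V₀ G E₀ hF B hB W hW (N W) (e W) (O W) (hCy W hW) D
    (hDw W hW)
  have hJ := fun W hW => hRFJ ℓ M hM h2 V₀ G E₀ hF B hB W hW (N W) (e W) (O W) (hCy W hW) D
    (hDw W hW)
  have hK := fun W hW => hRFK ℓ M hM h2 V₀ G E₀ hF B hB W hW (N W) (e W) (O W) (hCy W hW) D
    (hDw W hW) (hEv W hW)
  have hP := fun W hW => hRFP ℓ M hM h2 V₀ G E₀ hF B hB W hW (N W) (e W) (O W) (hCy W hW) D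
    (hDw W hW) (hEv W hW)
  have hV := fun W hW => val ℓ M hM h2 V₀ G E₀ hF B hB W hW (N W) (e W) (O W) (hCy W hW) D
    (hDw W hW)
  have hNN : ∀ W ∈ RL ℓ E₀, ∀ σ ∈ E₀, ∀ t ∈ Tg B.i.range B.g,
      (∀ v, t * B.i v * t⁻¹ = B.i (σ v)) → _ := fun W hW σ hσ t ht htv =>
    hRFN ℓ M hM h2 V₀ G E₀ hF B hB W hW σ hσ t ht htv (N W) (N (mp σ W)) (e W) (e (mp σ W))
      (O W) (O (mp σ W)) (hCy W hW) (hCy (mp σ W) ((hmp σ hσ W).2 hW))
      (fun χ hχ => hN W hW σ hσ t ht htv χ hχ) D (hDw W hW)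
      (hDw (mp σ W) ((hmp σ hσ W).2 hW))
  have hnA := fun W hW => hRNA ℓ M hM h2 V₀ G E₀ hF B hB W hW D (hDn W (hnot W hW))
  have hnB := fun W hW => hRNB ℓ M hM h2 V₀ G E₀ hF B hB W hW D (hDn W (hnot W hW))
  have hnC : ∀ W (hW : Rw E₀ W), ∀ σ ∈ E₀, ∀ t ∈ Tg B.i.range B.g,
      (∀ v, t * B.i v * t⁻¹ = B.i (σ v)) → _ := fun W hW σ hσ t ht htv =>
    hRNC ℓ M hM h2 V₀ G E₀ hF B hB W hW σ hσ t ht htv D (hDn W (hnot W hW))
      (hDn (mp σ W) (fun h => hnot W hW ((hmp σ hσ W).1 h)))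
  have hRtop : Rw E₀ (⊤ : Subgroup V₀) := by
    have h1 : (⊤ : Subgroup V₀) ≠ ⊥ := by
      intro h
      have h3 := hF.cd
      rw [← Subgroup.card_top, h, Subgroup.card_bot] at h3
      have h4 : 1 < ℓ ^ 2 := Nat.one_lt_pow (by norm_num) hlp.one_lt
      omega
    rcases hcase ⊤ h1 with h | h
    · exact absurd rfl (htop _ h).1
    · exact h.1
  refine ⟨D, ?_, fun W hW => (hDn W (hnot W hW)).dU, ?_, fun W hW => (hP W hW).1,
    fun W hW => (hP W hW).2⟩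
  · refine ⟨?_, ?_, ?_, ?_, ?_, ?_, ?_, ?_, ?_, ?_, ?_, ?_, ?_, ?_, ?_, ?_, ?_, ?_, ?_, ?_, ?_, ?_,
      ?_⟩
    -- ut
    · exact (hnA ⊤ hRtop).1.2.1 rfl
    -- u1
    · intro W hW
      rcases hcase W hW with h | h
      · exact (hV W h).2.1
      · exact (hnB W h.1).2.2
    -- ue
    · intro W hW σ hσ
      obtain ⟨htT, htv⟩ := htt σ hσ
      rcases hcase W hW with h | h
      · exact (hNN W h σ hσ (tt B σ) htT htv).1
      · exact (hnC W h.1 σ hσ (tt B σ) htT htv).1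
    -- d1
    · intro W hW χ hχ x hx
      rcases hcase W hW with h | h
      · exact (hA W h).1 χ hχ x (hx.resolve_right (htop W h).1)
      · exact (hnA W h.1).2.1 χ hχ x hx
    -- d2
    · intro W hW χ hχ
      rcases hcase W hW with h | h
      · exact (hA W h).2 χ hχ
      · exact (hnA W h.1).2.2.1 χ hχ
    -- d3
    · intro W hW
      rcases hcase W hW with h | h
      · exact hC W h
      · exact (hnA W h.1).2.2.2.1
    -- d4
    · intro W hW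
      rcases hcase W hW with h | h
      · exact hBB W h
      · exact (hnA W h.1).2.2.2.2
    -- d5
    · intro W hW
      rcases hcase W hW with h | h
      · exact (hDD W h).1
      · exact (hnB W h.1).1
    -- d6
    · intro W hW ψ hψ
      rcases hcase W hW with h | h
      · exact (hDD W h).2 ψ hψ
      · have hR := (hDn W h.2.1).dR
        refine ⟨fun x => ?_, fun χ _ => ?_⟩
        · simp only [hR, mul_zero, finsum_zero]
        · rw [hR, hR]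
          exact ⟨rfl, map_zero _⟩
    -- d7
    · intro W hW ψ hψ ψ' hψ' z hz c
      rcases hcase W hW with h | h
      · have h5 := hE W h ψ hψ ψ' hψ' z hz c
        rw [h5]
      · have hR := (hDn W h.2.1).dR
        simp only [hR, mul_zero, zero_mul, finsum_zero, ite_self]
    -- d8
    · intro W hW g hg hgW z hz c
      rcases hcase W hW with h | h
      · have h5 := hFF W h g hg hgW z hz c
        rw [h5]
      · have hR := (hDn W h.2.1).dR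
        have hf := (hDn W h.2.1).df
        simp only [hR, hf, mul_zero, finsum_zero, Rat.cast_one, sub_self, ite_self]
    -- f1
    · intro W hW hn
      have h : W ∉ RL ℓ E₀ := fun h => by
        have h5 := h.2
        rw [hn] at h5
        exact lt_irrefl _ h5
      exact ⟨(hDn W h).de, (hDn W h).df⟩
    -- fe
    · intro W hW σ hσ g hg hgW
      obtain ⟨htT, htv⟩ := htt σ hσ
      rcases hcase W hW with h | h
      · exact (hNN W h σ hσ (tt B σ) htT htv).2.2.1 g hg hgW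
      · rw [(hDn W h.2.1).df, (hDn (mp σ W) (fun h' => h.2.1 ((hmp σ hσ W).1 h'))).df]
    -- e1
    · intro W hW
      rcases hcase W hW with h | h
      · exact (hV W h).2.2.1
      · rw [(hDn W h.2.1).de]
        exact ⟨fun _ _ => rfl, fun _ _ _ => rfl, fun ψ _ _ _ => cv_zero ψ⟩
    -- e2
    · intro W hW g hg
      rcases hcase W hW with h | h
      · exact hG W h g hg
      · rw [(hDn W h.2.1).de]
        rfl
    -- e3
    · intro W hW χ hχ h0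
      rcases hcase W hW with h | h
      · exact (hH W h).1 χ hχ h0
      · rw [(hDn W h.2.1).de] at h0
        exact absurd (cv_zero χ) h0
    -- e4
    · intro W hW χ hχ
      rcases hcase W hW with h | h
      · exact (hH W h).2.1 χ hχ
      · rw [(hDn W h.2.1).de, cv_zero, zero_div]
        exact Subring.zero_mem _
    -- e5
    · intro W hW s hs
      rcases hcase W hW with h | h
      · exact hI W h s hs
      · rw [(hDn W h.2.1).de, Pi.zero_apply, mul_zero, zero_div]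
        exact Subring.zero_mem _
    -- e6
    · intro W hW κ hκ τ hτ y
      exact hK W hW κ hκ τ hτ y
    -- e7
    · intro W hW κ hκ
      exact (hJ W hW).2 κ hκ
    -- e8
    · intro W hW σ hσ t ht htv
      rcases hcase W hW with h | h
      · have h5 := hNN W h σ hσ t ht htv
        exact ⟨h5.2.1, h5.2.2.2⟩
      · have h5 := hnC W h.1 σ hσ t ht htv
        have h6 := hDn (mp σ W) (fun h' => h.2.1 ((hmp σ hσ W).1 h'))
        have h7 := hDn W h.2.1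
        refine ⟨fun g => ?_, fun χ hχ ψ hψ => ⟨(h5.2.2 χ hχ).2, ?_⟩⟩
        · rw [h6.de, h7.de]
          rfl
        · rw [h6.dR, h7.dR]
    -- e9
    · intro W hW χ hχ
      rcases hcase W hW with h | h
      · exact (hH W h).2.2.1 χ hχ
      · refine ⟨0, ?_⟩
        rw [(hDn W h.2.1).de, cv_zero, Rat.cast_zero]
    -- h1
    · intro W hW χ hχ
      rcases hcase W hW with h | h
      · exact (hH W h).2.2.2 χ hχ
      · exact (hnB W h.1).2.1 χ hχ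
  -- exceptional characters
  · intro W hW χ hχ
    obtain ⟨hCh, hex⟩ := hχ
    have hχN : χ ∉ N W := by
      rw [hNd]
      rintro ⟨-, hc, hx⟩
      rcases hex with ⟨hn, rfl⟩ | ⟨x, y, hxW, hyW, hx1, hy1, hxy⟩
      · exact hx hn (fun g _ _ => rfl)
      · apply hxy
        have hg := (gea ℓ V₀ E₀ hF W hW)
        have hxk : x ∈ kW E₀ W := by
          have h5 := (hg.2.1 x).2
          rw [hx1, inv_one, mul_one] at h5
          exact h5
        have hyk : y ∈ kW E₀ W := by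
          have h5 := (hg.2.1 y).2
          rw [hy1, inv_one, mul_one] at h5
          exact h5
        have h5 := hc x hxk y hyk (fun h => hxW (h ▸ W.one_mem)) (fun h => hyW (h ▸ W.one_mem))
        unfold vx at h5
        unfold Vx
        rw [mul_comm, mul_comm (B.D ⊤ : ℂ)⁻¹, ← div_eq_mul_inv, ← div_eq_mul_inv]
        exact h5
    have hU := (hDw W hW).dU χ hCh hχN
    obtain ⟨ν, hν, hχν⟩ := ((vxm ℓ M hM h2 V₀ G E₀ hF B hB W hW χ hCh).2.1).2.2.2.1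
    rcases ((hCy W hW).lv ν hν).sg χ hχν with h | h
    · left
      rw [← hU, h]
      push_cast
      ring
    · right
      rw [← hU, h]
      push_cast
      ring

end Pool.Agent.PP.SE.H45
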